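import Pool.Agent.Y630.TG.RcFault
import Pool.Agent.H589R3.DT.Two

/-! Games whose constraints are hidden in random faults. -/

set_option autoImplicit false
set_option linter.unusedSectionVars false
set_option linter.unusedVariables false

namespace Pool.Agent.Y630.TG

open Finset Pool.Agent.Y630.NW Pool.Agent.Y630.TF Pool.Agent.Y630.TR Pool.Agent.W969.MC H630VC
  H589DT

section

variable {U V M : Type} [Fintype U] [Fintype V] [Fintype M] [DecidableEq U] [DecidableEq V]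
  [DecidableEq M] {K : ℕ} [NeZero K]

open Classical in
/-- the bits of a game -/
noncomputable def encG (adj : U → V → Prop) (map : U → V → M) : U × V × M → Bool :=
  fun x => decide (adj x.1 x.2.1 ∧ map x.1 x.2.1 = x.2.2)

lemma encG_true {adj : U → V → Prop} {map : U → V → M} {x : U × V × M} :
    encG adj map x = true ↔ adj x.1 x.2.1 ∧ map x.1 x.2.1 = x.2.2 := by
  classical
  unfold encG
  rw [decide_eq_true_iff]

lemma hostG_true {adj : U → V → Prop} {map : U → V → M} {τ : U × V × M → Fin K}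
    {e : (U × V × M) × Fin K} :
    host (Function.Embedding.refl _) (fun _ => false) τ (encG adj map) e = true ↔
      τ e.1 = e.2 ∧ adj e.1.1 e.1.2.1 ∧ map e.1.1 e.1.2.1 = e.1.2.2 := by
  rw [host_true]
  constructor
  · rintro (h | ⟨x, h1, h2⟩)
    · exact absurd h (by simp)
    · have h3 : (x, τ x) = e := h2
      rw [← h3]
      exact ⟨rfl, encG_true.mp h1⟩
  · rintro ⟨h1, h2⟩
    exact Or.inr ⟨e.1, encG_true.mpr h2, Prod.ext rfl h1⟩

open Classical in
lemma hostG_count (adj : U → V → Prop) (map : U → V → M) (τ : U × V × M → Fin K)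
    (P : U → V → M → Prop) :
    (univ.filter fun e : (U × V × M) × Fin K =>
      host (Function.Embedding.refl _) (fun _ => false) τ (encG adj map) e = true ∧
        P e.1.1 e.1.2.1 e.1.2.2).card =
    (univ.filter fun p : U × V => adj p.1 p.2 ∧ P p.1 p.2 (map p.1 p.2)).card := by
  symm
  refine Finset.card_bij (fun p _ => ((p.1, p.2, map p.1 p.2), τ (p.1, p.2, map p.1 p.2)))
    ?_ ?_ ?_
  · intro p hp
    have hp' := (Finset.mem_filter.mp hp).2
    rw [Finset.mem_filter]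
    exact ⟨Finset.mem_univ _, hostG_true.mpr ⟨rfl, hp'.1, rfl⟩, hp'.2⟩
  · intro p _ p' _ h
    have h1 := (Prod.mk.inj (Prod.mk.inj h).1)
    exact Prod.ext h1.1 (Prod.mk.inj h1.2).1
  · intro e he
    have he' := (Finset.mem_filter.mp he).2
    obtain ⟨h1, h2, h3⟩ := hostG_true.mp he'.1
    refine ⟨(e.1.1, e.1.2.1), Finset.mem_filter.mpr ⟨Finset.mem_univ _, h2, ?_⟩, ?_⟩
    · show P e.1.1 e.1.2.1 (map e.1.1 e.1.2.1)
      rw [h3]
      exact he'.2
    · have h4 : (e.1.1, e.1.2.1, map e.1.1 e.1.2.1) = e.1 := by rw [h3]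
      refine Prod.ext h4 ?_
      show τ (e.1.1, e.1.2.1, map e.1.1 e.1.2.1) = e.2
      rw [h4]
      exact h1

open Classical in
lemma hostG_count' (adj : U → V → Prop) (map : U → V → M) (τ : U × V × M → Fin K) :
    (univ.filter fun e : (U × V × M) × Fin K =>
      host (Function.Embedding.refl _) (fun _ => false) τ (encG adj map) e = true).card =
    (univ.filter fun p : U × V => adj p.1 p.2).card := by
  have h := hostG_count adj map τ (fun _ _ _ => True)
  simpa using h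

end

/-- there is at most one edge for each pair of vertices -/
def Smp {U V M J : Type} (x : (U × V × M) × J → Bool) : Prop :=
  ∀ e e', x e = true → x e' = true → e.1.1 = e'.1.1 → e.1.2.1 = e'.1.2.1 → e = e'

lemma smp_host {U V M : Type} [Fintype U] [Fintype V] [Fintype M] [DecidableEq U] [DecidableEq V]
    [DecidableEq M] {K : ℕ} [NeZero K] (adj : U → V → Prop) (map : U → V → M)
    (τ : U × V × M → Fin K) :
    Smp (host (Function.Embedding.refl _) (fun _ => false) τ (encG adj map)) := by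
  intro e e' he he' h1 h2
  obtain ⟨h3, -, h4⟩ := hostG_true.mp he
  obtain ⟨h3', -, h4'⟩ := hostG_true.mp he'
  have h5 : e.1 = e'.1 := by
    refine Prod.ext h1 (Prod.ext h2 ?_)
    rw [← h4, ← h4', h1, h2]
  refine Prod.ext h5 ?_
  rw [← h3, ← h3', h5]

/-- games with alphabet `[q]`: the positions -/
abbrev TPos (N q K : ℕ) : Type := (Fin N × Fin N × (Fin q → Fin q)) × Fin K

/-- all constraints are 2-to-1 -/
def TTwo {N q K : ℕ} (x : TPos N q K → Bool) : Prop :=
  Smp x ∧ ∀ e, x e = true → ∀ b, (univ.filter fun a => e.1.2.2 a = b).card ≤ 2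

/-- value one -/
def TYesM {N q K : ℕ} (x : TPos N q K → Bool) : Prop :=
  TTwo x ∧ (∃ e, x e = true) ∧ ∃ A B : Fin N → Fin q, ∀ e, x e = true →
    e.1.2.2 (A e.1.1) = B e.1.2.1

open Classical in
/-- value at most `δ` -/
def TNoM {N q K : ℕ} (δ : ℝ) (x : TPos N q K → Bool) : Prop :=
  TTwo x ∧ (∃ e, x e = true) ∧ ∀ A B : Fin N → Fin q,
    ((univ.filter fun e => x e = true ∧ e.1.2.2 (A e.1.1) = B e.1.2.1).card : ℝ) ≤
      δ * (univ.filter fun e => x e = true).card

open Classical in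
theorem two_fault (δ : ℝ) (hδ : 0 < δ) : ∃ q : ℕ, 1 ≤ q ∧ ∃ N0 : ℕ, ∀ N D K : ℕ, N0 ≤ N → 1 ≤ D →
    D * (2 * Real.log N + q * Real.log q + 4) ≤ K →
    ∀ (R : Type) [Fintype R] [Nonempty R] (C : R → RC (TPos N q K × Bool)) (s : ℕ)
      (hT : ∀ ρ, (C ρ).T = ∅) (hs : ∀ ρ, (C ρ).S ≤ s)
      (h1 : ∀ x : TPos N q K → Bool, TNoM δ x →
        (4 / 5 : ℝ) * (Fintype.card R * (D : ℝ) ^ Fintype.card (TPos N q K)) ≤
        ({s : R × (TPos N q K → Fin D) | (C s.1).acc (lit x (Flt s.2))}.ncard : ℝ))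
      (h2 : ∀ x : TPos N q K → Bool, TYesM x →
        ({ρ : R | (C ρ).acc (lit x ∅)}.ncard : ℝ) ≤ 1 / 4 * Fintype.card R),
      (2 : ℝ) ^ ((N : ℝ) ^ (1 / 14 : ℝ)) ≤ 3 * s + 2 := by
  obtain ⟨q, hq, N0, H⟩ := two2one δ hδ
  refine ⟨q, hq, max N0 1, ?_⟩
  intro N D K hN hD hK R _ _ C s hT hs h1 h2
  have hN0 : N0 ≤ N := (le_max_left _ _).trans hN
  have hN1 : 1 ≤ N := (le_max_right _ _).trans hN
  have hNR : (1 : ℝ) ≤ N := by exact_mod_cast hN1
  have hqR : (1 : ℝ) ≤ q := by exact_mod_cast hq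
  have hDR : (1 : ℝ) ≤ D := by exact_mod_cast hD
  have hlogN : 0 ≤ Real.log N := Real.log_nonneg hNR
  have hlogq : 0 ≤ Real.log q := Real.log_nonneg hqR
  have hK0 : 0 < K := by
    have h3 : (0 : ℝ) < K := by
      refine lt_of_lt_of_le ?_ hK
      have : (0 : ℝ) < 2 * Real.log N + q * Real.log q + 4 := by positivity
      positivity
    exact_mod_cast h3
  have _ : NeZero K := ⟨hK0.ne'⟩
  have hne : Nonempty (Fin N × Fin N × (Fin q → Fin q)) :=
    ⟨⟨⟨0, by omega⟩, ⟨0, by omega⟩, fun _ => ⟨0, by omega⟩⟩⟩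
  have hcard : (Fintype.card (Fin N × Fin N × (Fin q → Fin q)) : ℝ) = (N : ℝ) ^ 2 * (q : ℝ) ^ q := by
    rw [Fintype.card_prod, Fintype.card_prod, Fintype.card_fun, Fintype.card_fin, Fintype.card_fin]
    push_cast
    ring
  have hbad : (Fintype.card (Fin N × Fin N × (Fin q → Fin q)) : ℝ) * (1 - 1 / (D : ℝ)) ^ K ≤
      1 / 40 := by
    refine places_bad hD (by rw [hcard]; positivity) ?_
    rw [hcard, Real.log_mul (by positivity) (by positivity), Real.log_pow, Real.log_pow]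
    push_cast
    exact hK
  have hfib : ∀ (I : TGame (Fin N) (Fin N) q) (τ : Fin N × Fin N × (Fin q → Fin q) → Fin K),
      TTwo (host (Function.Embedding.refl _) (fun _ => false) τ (encG I.adj I.map)) := by
    intro I τ
    refine ⟨smp_host _ _ τ, fun e he b => ?_⟩
    obtain ⟨-, h3, h4⟩ := hostG_true.mp he
    rw [← h4]
    convert I.fib e.1.1 e.1.2.1 h3 b
  obtain ⟨l, hprog, hlen, f, hf, hdec⟩ := rc_fault (I := TGame (Fin N) (Fin N) q)
    (X := Fin N × Fin N × (Fin q → Fin q)) (tInputs (Fin N) (Fin N) q)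
    (fun I => encG I.adj I.map) (fun x => by
      left
      refine ⟨x.1, x.2.1, x.2.2, ?_⟩
      funext I
      unfold Pool.Agent.H560R2.bit
      by_cases h3 : I.adj x.1 x.2.1 ∧ I.map x.1 x.2.1 = x.2.2
      · rw [if_pos h3, if_pos (encG_true.mpr h3)]
      · rw [if_neg h3, if_neg (fun h4 => h3 (encG_true.mp h4))])
    (fun c => Or.inr ⟨c, rfl⟩) (TNo δ) TYes hK0 hD C hT hbad
    (fun I hI τ => by
      refine h1 _ ⟨hfib I τ, ?_, ?_⟩
      · obtain ⟨u, v, huv⟩ := hI.1
        exact ⟨((u, v, I.map u v), τ (u, v, I.map u v)), hostG_true.mpr ⟨rfl, huv, rfl⟩⟩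
      · intro A B
        have e1 := hostG_count I.adj I.map τ (fun u v π => π (A u) = B v)
        have e2 := hostG_count' I.adj I.map τ
        convert hI.2 A B using 1
        · congr 1
          convert e1
        · congr 2)
    (fun I hI τ => by
      refine h2 _ ⟨hfib I τ, ?_, ?_⟩
      · obtain ⟨u, v, huv⟩ := hI.1
        exact ⟨((u, v, I.map u v), τ (u, v, I.map u v)), hostG_true.mpr ⟨rfl, huv, rfl⟩⟩
      · obtain ⟨A, B, hAB⟩ := hI.2
        refine ⟨A, B, fun e he => ?_⟩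
        obtain ⟨-, h3, h4⟩ := hostG_true.mp he
        rw [← h4]
        exact hAB _ _ h3)
  have : Nonempty (R × (Fin N × Fin N × (Fin q → Fin q) → Fin K)) :=
    ⟨(Classical.arbitrary R, fun _ => 0)⟩
  obtain ⟨ω, hω⟩ := H N hN0 _ l hprog ⟨f, hf, fun I => by
    have h3 := hdec I
    convert h3⟩
  refine hω.trans ?_
  have h3 : (l ω).length ≤ 3 * s + 2 := (hlen ω).trans (by have := hs ω.1; omega)
  exact_mod_cast h3

/-- d-to-1 games: the positions -/
abbrev DPos (N d R K : ℕ) : Type := (Fin N × Fin N × (Fin (d * R) → Fin R)) × Fin K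

/-- all constraints are d-to-1 -/
def DFib {N d R K : ℕ} (x : DPos N d R K → Bool) : Prop :=
  Smp x ∧ ∀ e, x e = true → ∀ a, (univ.filter fun b => e.1.2.2 b = a).card ≤ d

/-- value one -/
def DYesM {N d R K : ℕ} (x : DPos N d R K → Bool) : Prop :=
  DFib x ∧ (∃ e, x e = true) ∧ ∃ (A : Fin N → Fin R) (B : Fin N → Fin (d * R)),
    ∀ e, x e = true → e.1.2.2 (B e.1.2.1) = A e.1.1

open Classical in
/-- value less than `ε` -/
def DNoM {N d R K : ℕ} (ε : ℝ) (x : DPos N d R K → Bool) : Prop :=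
  DFib x ∧ ∀ (A : Fin N → Fin R) (B : Fin N → Fin (d * R)),
    ((univ.filter fun e => x e = true ∧ e.1.2.2 (B e.1.2.1) = A e.1.1).card : ℝ) <
      ε * (univ.filter fun e => x e = true).card

open Classical in
theorem dto_fault (d : ℕ) (hd : 2 ≤ d) (ε : ℝ) (hε : 0 < ε) : ∃ r : ℕ, 1 ≤ r ∧ ∃ N0 : ℕ,
    ∀ N D K : ℕ, N0 ≤ N → 1 ≤ D →
    D * (2 * Real.log N + d * r * Real.log r + 4) ≤ K →
    ∀ (R : Type) [Fintype R] [Nonempty R] (C : R → RC (DPos N d r K × Bool)) (s : ℕ)
      (hT : ∀ ρ, (C ρ).T = ∅) (hs : ∀ ρ, (C ρ).S ≤ s)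
      (h1 : ∀ x : DPos N d r K → Bool, DNoM ε x →
        (4 / 5 : ℝ) * (Fintype.card R * (D : ℝ) ^ Fintype.card (DPos N d r K)) ≤
        ({s : R × (DPos N d r K → Fin D) | (C s.1).acc (lit x (Flt s.2))}.ncard : ℝ))
      (h2 : ∀ x : DPos N d r K → Bool, DYesM x →
        ({ρ : R | (C ρ).acc (lit x ∅)}.ncard : ℝ) ≤ 1 / 4 * Fintype.card R),
      (2 : ℝ) ^ ((N : ℝ) ^ (1 / 14 : ℝ)) ≤ 3 * s + 2 := by
  obtain ⟨r, hr, N0, H⟩ := dto1 d hd ε hε
  refine ⟨r, hr, max N0 1, ?_⟩
  intro N D K hN hD hK R _ _ C s hT hs h1 h2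
  have hN0 : N0 ≤ N := (le_max_left _ _).trans hN
  have hN1 : 1 ≤ N := (le_max_right _ _).trans hN
  have hNR : (1 : ℝ) ≤ N := by exact_mod_cast hN1
  have hrR : (1 : ℝ) ≤ r := by exact_mod_cast hr
  have hDR : (1 : ℝ) ≤ D := by exact_mod_cast hD
  have hlogN : 0 ≤ Real.log N := Real.log_nonneg hNR
  have hlogr : 0 ≤ Real.log r := Real.log_nonneg hrR
  have hK0 : 0 < K := by
    have h3 : (0 : ℝ) < K := by
      refine lt_of_lt_of_le ?_ hK
      have : (0 : ℝ) < 2 * Real.log N + d * r * Real.log r + 4 := by positivity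
      positivity
    exact_mod_cast h3
  have _ : NeZero K := ⟨hK0.ne'⟩
  have hne : Nonempty (Fin N × Fin N × (Fin (d * r) → Fin r)) :=
    ⟨⟨⟨0, by omega⟩, ⟨0, by omega⟩, fun _ => ⟨0, by omega⟩⟩⟩
  have hcard : (Fintype.card (Fin N × Fin N × (Fin (d * r) → Fin r)) : ℝ) =
      (N : ℝ) ^ 2 * (r : ℝ) ^ (d * r) := by
    rw [Fintype.card_prod, Fintype.card_prod, Fintype.card_fun, Fintype.card_fin, Fintype.card_fin,
      Fintype.card_fin]
    push_cast
    ring
  have hbad : (Fintype.card (Fin N × Fin N × (Fin (d * r) → Fin r)) : ℝ) *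
      (1 - 1 / (D : ℝ)) ^ K ≤ 1 / 40 := by
    refine places_bad hD (by rw [hcard]; positivity) ?_
    rw [hcard, Real.log_mul (by positivity) (by positivity), Real.log_pow, Real.log_pow]
    push_cast
    exact hK
  have hfib : ∀ (I : DGame (Fin N) (Fin N) d r)
      (τ : Fin N × Fin N × (Fin (d * r) → Fin r) → Fin K),
      DFib (host (Function.Embedding.refl _) (fun _ => false) τ (encG I.adj I.map)) := by
    intro I τ
    refine ⟨smp_host _ _ τ, fun e he b => ?_⟩
    obtain ⟨-, h3, h4⟩ := hostG_true.mp he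
    rw [← h4]
    convert I.fib e.1.1 e.1.2.1 h3 b
  obtain ⟨l, hprog, hlen, f, hf, hdec⟩ := rc_fault (I := DGame (Fin N) (Fin N) d r)
    (X := Fin N × Fin N × (Fin (d * r) → Fin r)) (dInputs (Fin N) (Fin N) d r)
    (fun I => encG I.adj I.map) (fun x => by
      left
      refine ⟨x.1, x.2.1, x.2.2, ?_⟩
      funext I
      unfold Pool.Agent.H560R2.bit
      by_cases h3 : I.adj x.1 x.2.1 ∧ I.map x.1 x.2.1 = x.2.2
      · rw [if_pos h3, if_pos (encG_true.mpr h3)]
      · rw [if_neg h3, if_neg (fun h4 => h3 (encG_true.mp h4))])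
    (fun c => Or.inr ⟨c, rfl⟩) (DNo ε) DYes hK0 hD C hT hbad
    (fun I hI τ => by
      refine h1 _ ⟨hfib I τ, ?_⟩
      intro A B
      have e1 := hostG_count I.adj I.map τ (fun u v π => π (B v) = A u)
      have e2 := hostG_count' I.adj I.map τ
      convert hI A B using 1
      · congr 1
        convert e1
      · congr 2)
    (fun I hI τ => by
      refine h2 _ ⟨hfib I τ, ?_, ?_⟩
      · obtain ⟨u, v, huv⟩ := hI.1
        exact ⟨((u, v, I.map u v), τ (u, v, I.map u v)), hostG_true.mpr ⟨rfl, huv, rfl⟩⟩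
      · obtain ⟨A, B, hAB⟩ := hI.2
        refine ⟨A, B, fun e he => ?_⟩
        obtain ⟨-, h3, h4⟩ := hostG_true.mp he
        rw [← h4]
        exact hAB _ _ h3)
  have : Nonempty (R × (Fin N × Fin N × (Fin (d * r) → Fin r) → Fin K)) :=
    ⟨(Classical.arbitrary R, fun _ => 0)⟩
  obtain ⟨ω, hω⟩ := H N hN0 _ l hprog ⟨f, hf, fun I => by
    have h3 := hdec I
    convert h3⟩
  refine hω.trans ?_
  have h3 : (l ω).length ≤ 3 * s + 2 := (hlen ω).trans (by have := hs ω.1; omega)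
  exact_mod_cast h3

end Pool.Agent.Y630.TG
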