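import Pool.Agent.Y630.TR.Lsub
import Pool.Agent.Y630.TF.RCProg

/-! Real circuits on literals that tolerate faults: worst-case monotone lower bounds. -/

set_option autoImplicit false
set_option linter.unusedSectionVars false
set_option linter.unusedVariables false

namespace Pool.Agent.Y630.TG

open Finset Pool.Agent.Y630.NW Pool.Agent.Y630.TF Pool.Agent.Y630.TR Pool.Agent.W969.MC H630VC

lemma prog_of_fprog {I : Type} {inp : Set (I → ℝ)} {l : List (I → ℝ)}
    {q : List (List ((I → ℝ) × ℝ))} (h : FProg inp l q) (hq : q = []) : Prog inp l := by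
  induction h with
  | nil => exact Prog.nil
  | input _ hf ih => exact Prog.input (ih hq) hf
  | gate _ hφ hf hg ih => exact Prog.gate (ih hq) hφ hf hg
  | free _ _ _ => exact absurd hq (by simp)

open Classical in
/-- hidden circuits decide the small problem -/
theorem rc_fault {I X : Type} [Fintype X] [DecidableEq X] [Nonempty X] (inp : Set (I → ℝ))
    (enc : I → X → Bool)
    (hbit : ∀ x, (fun i => Pool.Agent.H560R2.bit (enc i) x) ∈ inp)
    (hconst : ∀ c : ℝ, (fun _ => c) ∈ inp) (No Yes : I → Prop) {K D : ℕ} (hK : 0 < K) (hD : 0 < D)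
    {R : Type} [Fintype R] [Nonempty R] (C : R → RC ((X × Fin K) × Bool))
    (hT : ∀ ρ, (C ρ).T = ∅)
    (hbad : (Fintype.card X : ℝ) * (1 - 1 / (D : ℝ)) ^ K ≤ 1 / 40)
    (h1 : ∀ i, No i → ∀ τ : X → Fin K,
      (4 / 5 : ℝ) * (Fintype.card R * (D : ℝ) ^ Fintype.card (X × Fin K)) ≤
      ({s : R × (X × Fin K → Fin D) | (C s.1).acc (lit (host (Function.Embedding.refl _)
        (fun _ => false) τ (enc i)) (Flt s.2))}.ncard : ℝ))
    (h2 : ∀ i, Yes i → ∀ τ : X → Fin K,
      ({ρ : R | (C ρ).acc (lit (host (Function.Embedding.refl _) (fun _ => false) τ (enc i))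
        ∅)}.ncard : ℝ) ≤ 1 / 4 * Fintype.card R) :
    ∃ l : R × (X → Fin K) → List (I → ℝ), (∀ ω, Prog inp (l ω)) ∧
      (∀ ω, (l ω).length ≤ 3 * (C ω.1).S + 2) ∧ ∃ f : R × (X → Fin K) → I → ℝ,
        (∀ ω, f ω ∈ l ω) ∧ ∀ i,
        (No i → 3 * Fintype.card (R × (X → Fin K)) ≤ 4 * (univ.filter fun ω => 1 ≤ f ω i).card) ∧
        (Yes i → 3 * Fintype.card (R × (X → Fin K)) ≤ 4 * (univ.filter fun ω => f ω i < 1).card) := by
  have _ : NeZero K := ⟨hK.ne'⟩
  have hx0 : Nonempty X := inferInstance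
  obtain ⟨x0⟩ := hx0
  have hex : ∀ ω : R × (X → Fin K), ∃ (l : List (I → ℝ)) (f : I → ℝ), Prog inp l ∧
      l.length ≤ 3 * (C ω.1).S + 2 ∧ f ∈ l ∧ ∀ i, 1 ≤ f i ↔
        (C ω.1).acc (rlit (Function.Embedding.refl _) (fun _ => false) ω.2 (enc i)) := by
    intro ω
    obtain ⟨σ, c, hσ⟩ := rlit_lsb (Function.Embedding.refl (X × Fin K)) (fun _ => false) ω.2
    obtain ⟨C', hsize, -, hT', hacc⟩ := subst (C ω.1) x0 σ c
    have hT2 : C'.T = ∅ := hT'.mpr (hT ω.1)
    obtain ⟨L, hL, hlen, f, hf, hval⟩ := rc_prog inp enc hbit hconst C' hT2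
    refine ⟨L, f, prog_of_fprog hL rfl, ?_, hf, fun i => ?_⟩
    · have h3 : C'.S = (C ω.1).S := by
        have h4 : C'.size = C'.S := by
          unfold RC.size
          rw [hT2, Finset.sum_empty, Nat.add_zero]
        have h5 : (C ω.1).size = (C ω.1).S := by
          unfold RC.size
          rw [hT ω.1, Finset.sum_empty, Nat.add_zero]
        rw [← h4, ← h5, hsize]
      rw [← h3]
      exact hlen
    · rw [hval i, hacc, hσ]
      rfl
  choose l f hprog hlen hmem hval using hex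
  refine ⟨l, hprog, hlen, f, hmem, fun i => ⟨fun hi => ?_, fun hi => ?_⟩⟩
  · have h3 := transfer_yes (Function.Embedding.refl (X × Fin K)) (fun _ => false) hD
      (fun ρ y => (C ρ).acc y) (fun ρ u v huv hu => acc_mono _ (hT ρ) huv hu) (3 / 4) (1 / 20)
      (by rw [Fintype.card_fin]; exact hbad.trans (by norm_num)) (enc i) (fun τ => by
        have h4 := h1 i hi τ
        norm_num at h4 ⊢
        exact h4)
    have h4 : (3 / 4 : ℝ) * Fintype.card (R × (X → Fin K)) ≤
        ((univ.filter fun ω => 1 ≤ f ω i).card : ℝ) := by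
      refine le_trans ?_ (h3.trans (le_of_eq ?_))
      · refine mul_le_mul_of_nonneg_right (by norm_num) (Nat.cast_nonneg _)
      · rw [Set.ncard_eq_toFinset_card']
        congr 2
        ext ω
        simp [hval]
    have h5 : (3 : ℝ) * Fintype.card (R × (X → Fin K)) ≤
        4 * ((univ.filter fun ω => 1 ≤ f ω i).card : ℝ) := by linarith
    exact_mod_cast h5
  · have h3 := transfer_no (Function.Embedding.refl (X × Fin K)) (fun _ => false)
      (fun ρ y => (C ρ).acc y) (fun ρ u v huv hu => acc_mono _ (hT ρ) huv hu) (1 / 4) (enc i)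
      (fun τ => h2 i hi τ)
    have h4 : ((univ.filter fun ω => 1 ≤ f ω i).card : ℝ) ≤
        1 / 4 * Fintype.card (R × (X → Fin K)) := by
      refine le_trans (le_of_eq ?_) h3
      rw [Set.ncard_eq_toFinset_card']
      congr 2
      ext ω
      simp [hval]
    have h5 := Finset.card_filter_add_card_filter_not (s := (univ : Finset (R × (X → Fin K))))
      (p := fun ω => 1 ≤ f ω i)
    rw [Finset.card_univ] at h5
    have h6 : (univ.filter fun ω : R × (X → Fin K) => ¬ 1 ≤ f ω i) =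
        univ.filter fun ω => f ω i < 1 := by
      ext ω
      simp
    rw [h6] at h5
    have h7 : ((univ.filter fun ω => 1 ≤ f ω i).card : ℝ) +
        ((univ.filter fun ω => f ω i < 1).card : ℝ) = Fintype.card (R × (X → Fin K)) := by
      exact_mod_cast h5
    have h8 : (3 : ℝ) * Fintype.card (R × (X → Fin K)) ≤
        4 * ((univ.filter fun ω => f ω i < 1).card : ℝ) := by linarith
    exact_mod_cast h8

/-- the number of places -/
lemma places_bad {D K : ℕ} (hD : 0 < D) {n : ℝ} (hn : 0 < n)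
    (hK : D * (Real.log n + 4) ≤ K) : n * (1 - 1 / (D : ℝ)) ^ K ≤ 1 / 40 := by
  have hDR : (0 : ℝ) < D := by exact_mod_cast hD
  have h0 : (0 : ℝ) ≤ 1 - 1 / (D : ℝ) := by
    rw [sub_nonneg, div_le_one hDR]
    exact_mod_cast hD
  have h1 : (1 - 1 / (D : ℝ)) ≤ Real.exp (-(1 / D)) := by
    have := Real.add_one_le_exp (-(1 / (D : ℝ)))
    linarith
  have h2 : (1 - 1 / (D : ℝ)) ^ K ≤ Real.exp (-(K / D)) := by
    calc (1 - 1 / (D : ℝ)) ^ K ≤ Real.exp (-(1 / D)) ^ K := pow_le_pow_left₀ h0 h1 K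
      _ = Real.exp (-(K / D)) := by
          rw [← Real.exp_nat_mul]
          congr 1
          ring
  have h3 : Real.log n + 4 ≤ K / D := by
    rw [le_div_iff₀ hDR]
    linarith
  have h4 : Real.exp (-(K / D)) ≤ Real.exp (-(Real.log n + 4)) := by
    apply Real.exp_le_exp.mpr
    linarith
  have h5 : n * Real.exp (-(Real.log n + 4)) = Real.exp (-4) := by
    rw [neg_add, Real.exp_add, Real.exp_neg (Real.log n), Real.exp_log hn]
    field_simp
  have h6 : Real.exp (-4) ≤ 1 / 40 := by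
    have h7 : Real.exp (-4) = Real.exp (-1) ^ 4 := by
      rw [← Real.exp_nat_mul]
      norm_num
    have h8 := Real.exp_neg_one_lt_d9
    have h9 : Real.exp (-1) ^ 4 ≤ (0.3678794412 : ℝ) ^ 4 :=
      pow_le_pow_left₀ (Real.exp_pos _).le h8.le 4
    rw [h7]
    refine h9.trans ?_
    norm_num
  calc n * (1 - 1 / (D : ℝ)) ^ K ≤ n * Real.exp (-(Real.log n + 4)) :=
        mul_le_mul_of_nonneg_left (h2.trans h4) hn.le
    _ = Real.exp (-4) := h5
    _ ≤ 1 / 40 := h6

end Pool.Agent.Y630.TG
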